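import Pool.Agent.Helper12.NK.St

/-! NK module PLS: the graph with a new vertex in every face is planar. -/

set_option autoImplicit false

namespace Pool.Agent.Helper64.NK

open Pool.Agent.Helper12.NK
open Pool.Agent.Helper51.AJ (IsMinor Planar Apex ExMinor Con Tch con_singleton)
open Pool.Agent.Helper35.PM (Rot)

private theorem finDart {V : Type} [Finite V] (H : SimpleGraph V) : Finite H.Dart :=
  Finite.of_injective (fun d : H.Dart => d.toProd) (fun d e h => SimpleGraph.Dart.ext d e h)

theorem hPLS : StPTR → StKUR → StFAC → StPLU → StRPW → StPLS := by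
  intro hPTR hKUR hFAC hPLU hRPW V _ G U hK hP
  obtain ⟨R⟩ := hKUR V G U hK hP
  have hF : ∀ F : {F : Set V // IsFace G U F}, ∃ d, fac R d = F.1 := fun F => hFAC V G U R hK F.1 F.2
  choose dF hdF using hF
  have := finDart (rst G U)
  have : Finite (Quotient (Equiv.Perm.SameCycle.setoid R.φ)) := Quotient.finite _
  have hPl : Planar (rplus R) := hRPW _ (rplus R) (hPLU V (rst G U) R)
  -- the injection of the vertices
  let g : V ⊕ {F : Set V // IsFace G U F} → V ⊕ Quotient (Equiv.Perm.SameCycle.setoid R.φ) :=
    Sum.map id (fun F => Quotient.mk _ (dF F))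
  have hg : Function.Injective g := by
    refine Sum.map_injective.2 ⟨Function.injective_id, ?_⟩
    intro F F' h
    have hs : R.φ.SameCycle (dF F) (dF F') := Quotient.exact h
    apply Subtype.ext
    rw [← hdF F, ← hdF F']
    ext x
    constructor
    · rintro ⟨e, he, hx⟩
      exact ⟨e, hs.symm.trans he, hx⟩
    · rintro ⟨e, he, hx⟩
      exact ⟨e, hs.trans he, hx⟩
  have hinc : ∀ (a : V) (F : {F : Set V // IsFace G U F}), a ∈ F.1 →
      (rplus R).Adj (g (Sum.inl a)) (g (Sum.inr F)) := by
    intro a F h
    rw [← hdF F] at h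
    obtain ⟨e, he, hx⟩ := h
    exact ⟨e, Quotient.sound (show R.φ.SameCycle e (dF F) from he.symm), hx⟩
  have hadj : ∀ x y, (plus G U).Adj x y → (rplus R).Adj (g x) (g y) := by
    intro x y h
    rcases x with a | F <;> rcases y with b | F'
    · exact h
    · exact hinc a F' h
    · exact (hinc b F h).symm
    · exact h.elim
  refine hPTR _ _ (plus G U) (rplus R) (fun a => {g a}) (fun a _ _ => con_singleton _ _) ?_ ?_ hPl
  · intro a a' b b' hab _ _
    rw [Set.disjoint_singleton]
    exact fun h => hab (hg h)
  · intro a a' h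
    exact ⟨g a, rfl, g a', rfl, hadj a a' h⟩

end Pool.Agent.Helper64.NK
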